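import Pool.Agent.Lib.MP_8fffab_lc_NM.Sep
import Pool.Agent.Lib.MP_678664_lc_FN.Approx

/-!
# Approximation of the monotone functions of a circuit by closed families

Only the AND gates cost a truncation: at the other gates we keep arbitrary families of sets of size
at most `c`.
-/

set_option autoImplicit false

open Finset FewNeg FewNeg.ApproxAux

namespace AlmostMono

variable {E Z : Type} [Fintype E] [DecidableEq E] [Fintype Z] [Nonempty Z]

/-- The number of AND gates among the gates with numbers `< n`. -/
noncomputable def andLt {ι : Type} (C : Circuit ι) (n : ℕ) : ℕ :=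
  ((range n).filter fun i => (C i).isAnd = true).card

theorem andLt_succ {ι : Type} (C : Circuit ι) (n : ℕ) :
    andLt C (n + 1) = andLt C n + if (C n).isAnd = true then 1 else 0 := by
  unfold andLt
  rw [Finset.range_add_one, Finset.filter_insert]
  split_ifs with h
  · rw [Finset.card_insert_of_notMem (by simp)]
  · rfl

/-- The approximators of the first `n` gates. -/
theorem approximators {ι : Type} {Q R c ρ : ℕ} (hQ : 0 < Q) (hc : 1 ≤ c)
    (hρ : 8 * (1 + 2 * c) ≤ ρ) {Y : Z → Set E} (hY : Spread Y (Q * ρ) (2 * c))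
    {a : Set E → ι → Prop} (ha : IsLit a) (C : Circuit ι) (β : ℕ → Prop) (n : ℕ) :
    ∃ (A : ℕ → Finset (Finset E)) (bp : Z → Prop) (bn : Set E → Prop),
      avg (fun z => ind (bp z)) ≤ andLt C n * (2 * (2 * c / ρ : ℝ) ^ (c + 1)) ∧
      (T Q)^[R] (fun S => ind (bn S)) ∅
        ≤ andLt C n * (((Fintype.card E : ℝ) + 1) ^ (2 * c) * (3 / 4) ^ R) ∧
      ∀ i < n, (∀ x ∈ A i, x.card ≤ c) ∧
        (∀ z, ¬ bp z → C.mval β (a (Y z)) i → Hits (A i) (Y z)) ∧
        (∀ S, ¬ bn S → Hits (A i) S → C.mval β (a S) i) := by
  classical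
  induction n with
  | zero =>
    refine ⟨fun _ => ∅, fun _ => False, fun _ => False, ?_, ?_, ?_⟩
    · have : (fun _ : Z => ind False) = fun _ => 0 := by
        funext z; exact ind_false (fun h => h)
      rw [this, avg_const]; simp [andLt]
    · have : (fun _ : Set E => ind False) = fun _ => 0 := by
        funext z; exact ind_false (fun h => h)
      rw [this, T_iter_const hQ]; simp [andLt]
    · intro i hi
      omega
  | succ n ih =>
    obtain ⟨A, bp, bn, hbp, hbn, hA⟩ := ih
    by_cases hand : (C n).isAnd = true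
    · -- an AND gate
      have hgate : ∃ D : Finset (Finset E), (∀ x ∈ D, x.card ≤ 2 * c) ∧
          (∀ z, ¬ bp z → C.mval β (a (Y z)) n → Hits D (Y z)) ∧
          (∀ S, ¬ bn S → Hits D S → C.mval β (a S) n) := by
        cases hC : C n with
        | and p q =>
          have hval : ∀ S, C.mval β (a S) n ↔ C.mval β (a S) p ∧ C.mval β (a S) q := by
            intro S; rw [Circuit.mval.eq_def, hC]
          obtain ⟨hp1, hp2, hp3⟩ := hA p p.isLt
          obtain ⟨hq1, hq2, hq3⟩ := hA q q.isLt
          refine ⟨Finset.image₂ (· ∪ ·) (A p) (A q), ?_, fun z hz hv => ?_, fun S hS hh => ?_⟩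
          · intro x hx
            rw [Finset.mem_image₂] at hx
            obtain ⟨y, hy, w, hw, rfl⟩ := hx
            have h1 := hp1 y hy
            have h2 := hq1 w hw
            have h3 := Finset.card_union_le y w
            omega
          · rw [hval] at hv
            exact (hits_image2 _ _ _).2 ⟨hp2 z hz hv.1, hq2 z hz hv.2⟩
          · rw [hval]
            have := (hits_image2 _ _ _).1 hh
            exact ⟨hp3 S hS this.1, hq3 S hS this.2⟩
        | input v => rw [hC] at hand; exact absurd hand (by simp [Gate.isAnd])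
        | const b => rw [hC] at hand; exact absurd hand (by simp [Gate.isAnd])
        | or F => rw [hC] at hand; exact absurd hand (by simp [Gate.isAnd])
        | other r w g => rw [hC] at hand; exact absurd hand (by simp [Gate.isAnd])
      obtain ⟨D, hD1, hD2, hD3⟩ := hgate
      obtain ⟨B, hB, hBp, hBn⟩ := exists_trunc (R := R) hQ hc hρ hY D hD1
      have hcard : ((andLt C (n + 1) : ℕ) : ℝ) = andLt C n + 1 := by
        rw [andLt_succ, if_pos hand]; push_cast; ring
      refine ⟨Function.update A n B, fun z => bp z ∨ (Hits D (Y z) ∧ ¬ Hits B (Y z)),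
        fun S => bn S ∨ (Hits B S ∧ ¬ Hits D S), ?_, ?_, ?_⟩
      · refine (avg_mono fun z => ind_or_le _ _).trans ?_
        rw [avg_add, hcard]
        linarith
      · refine (T_iter_mono' (fun S => ind_or_le _ _) R ∅).trans ?_
        rw [T_iter_add, hcard]
        linarith
      · intro i hi
        rcases Nat.lt_succ_iff_lt_or_eq.1 hi with h | h
        · rw [Function.update_of_ne (by omega)]
          obtain ⟨h1, h2, h3⟩ := hA i h
          exact ⟨h1, fun z hz hv => h2 z (fun hh => hz (Or.inl hh)) hv,
            fun S hS hv => h3 S (fun hh => hS (Or.inl hh)) hv⟩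
        · subst h
          rw [Function.update_self]
          refine ⟨hB.1, fun z hz hv => ?_, fun S hS hv => ?_⟩
          · by_contra hn
            exact hz (Or.inr ⟨hD2 z (fun hh => hz (Or.inl hh)) hv, hn⟩)
          · apply hD3 S (fun hh => hS (Or.inl hh))
            by_contra hn
            exact hS (Or.inr ⟨hv, hn⟩)
    · -- the other gates
      have hgate : ∃ D : Finset (Finset E), (∀ x ∈ D, x.card ≤ c) ∧
          (∀ z, ¬ bp z → C.mval β (a (Y z)) n → Hits D (Y z)) ∧
          (∀ S, ¬ bn S → Hits D S → C.mval β (a S) n) := by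
        cases hC : C n with
        | input v =>
          have hval : ∀ S, C.mval β (a S) n ↔ a S v := by
            intro S; rw [Circuit.mval.eq_def, hC]
          rcases ha v with h | h | ⟨e, he⟩
          · refine ⟨{∅}, by simp, fun z _ _ => hits_top _, fun S _ _ => ?_⟩
            rw [hval]; exact h S
          · refine ⟨∅, by simp, fun z _ hv => ?_, fun S _ hh => absurd hh (not_hits_bot S)⟩
            rw [hval] at hv
            exact absurd hv (h _)
          · refine ⟨{{e}}, ?_, fun z _ hv => ?_, fun S _ hh => ?_⟩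
            · intro x hx
              rw [Finset.mem_singleton] at hx
              rw [hx, Finset.card_singleton]; omega
            · rw [hval, he] at hv
              exact (hits_single e _).2 hv
            · rw [hval, he]
              exact (hits_single e _).1 hh
        | const b =>
          have hval : ∀ S, C.mval β (a S) n ↔ (b = true) := by
            intro S; rw [Circuit.mval.eq_def, hC]
          obtain ⟨D, hD0, hD⟩ := exists_const (E := E) (b = true)
          exact ⟨D, fun x hx => by rw [hD0 x hx]; omega,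
            fun z _ hv => (hD _).2 ((hval _).1 hv), fun S _ hh => (hval _).2 ((hD _).1 hh)⟩
        | and p q => rw [hC] at hand; exact absurd rfl hand
        | or F =>
          have hval : ∀ S, C.mval β (a S) n ↔ ∃ p ∈ F, C.mval β (a S) p := by
            intro S; rw [Circuit.mval.eq_def, hC]
          refine ⟨F.biUnion fun p => A p, ?_, fun z hz hv => ?_, fun S hS hh => ?_⟩
          · intro x hx
            obtain ⟨p, -, hp⟩ := Finset.mem_biUnion.1 hx
            exact (hA p p.isLt).1 x hp
          · rw [hval] at hv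
            obtain ⟨p, hp, hv⟩ := hv
            obtain ⟨x, hx, hxS⟩ := (hA p p.isLt).2.1 z hz hv
            exact ⟨x, Finset.mem_biUnion.2 ⟨p, hp, hx⟩, hxS⟩
          · rw [hval]
            obtain ⟨x, hx, hxS⟩ := hh
            obtain ⟨p, hp, hx⟩ := Finset.mem_biUnion.1 hx
            exact ⟨p, hp, (hA p p.isLt).2.2 S hS ⟨x, hx, hxS⟩⟩
        | other r w g =>
          have hval : ∀ S, C.mval β (a S) n ↔ β n := by
            intro S; rw [Circuit.mval.eq_def, hC]
          obtain ⟨D, hD0, hD⟩ := exists_const (E := E) (β n)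
          exact ⟨D, fun x hx => by rw [hD0 x hx]; omega,
            fun z _ hv => (hD _).2 ((hval _).1 hv), fun S _ hh => (hval _).2 ((hD _).1 hh)⟩
      obtain ⟨D, hD1, hD2, hD3⟩ := hgate
      have hcard : andLt C (n + 1) = andLt C n := by
        rw [andLt_succ, if_neg hand, add_zero]
      refine ⟨Function.update A n D, bp, bn, by rw [hcard]; exact hbp, by rw [hcard]; exact hbn, ?_⟩
      intro i hi
      rcases Nat.lt_succ_iff_lt_or_eq.1 hi with h | h
      · rw [Function.update_of_ne (by omega)]
        exact hA i h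
      · subst h
        rw [Function.update_self]
        exact ⟨hD1, hD2, hD3⟩

/-- Small circuits whose further gates are replaced by constants cannot see the planted set. -/
theorem mono_bound {ι : Type}
    {Q R c ρ : ℕ} (hQ : 0 < Q) (hR : 0 < R) (hc : 1 ≤ c) (hρ : 8 * (1 + 2 * c) ≤ ρ)
    {Y : Z → Set E} (hY : Spread Y (Q * ρ) (2 * c))
    {a : Set E → ι → Prop} (ha : IsLit a) (C : Circuit ι) (β : ℕ → Prop) {i s : ℕ}
    (his : C.numAnd i ≤ s) (G : Set E) :
    avg (fun z => ind (C.mval β (a (G ∪ Y z)) i))
      ≤ (T Q)^[R] (fun S => ind (C.mval β (a S) i)) G +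
        (s + 1) * err (Fintype.card E) R c ρ := by
  classical
  have ha' : IsLit (fun S => a (G ∪ S)) := by
    intro v
    rcases ha v with h | h | ⟨e, he⟩
    · exact Or.inl fun x => h _
    · exact Or.inr (Or.inl fun x => h _)
    · by_cases heG : e ∈ G
      · exact Or.inl fun x => (he _).2 (Or.inl heG)
      · refine Or.inr (Or.inr ⟨e, fun x => ?_⟩)
        change a (G ∪ x) v ↔ e ∈ x
        rw [he]
        constructor
        · rintro (h | h)
          · exact absurd h heG
          · exact h
        · exact fun h => Or.inr h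
  obtain ⟨A, bp, bn, hbp, hbn, hA⟩ := approximators (R := R) hQ hc hρ hY ha' C β (i + 1)
  obtain ⟨h1, h2, h3⟩ := hA i (Nat.lt_succ_self i)
  have hs : ((andLt C (i + 1) : ℕ) : ℝ) ≤ s := by exact_mod_cast his
  obtain ⟨B, hB, hBp, hBn⟩ := exists_trunc (R := R) hQ hc hρ hY (A i)
    (fun x hx => (h1 x hx).trans (by omega))
  have hYc : Spread Y (Q * ρ) c := fun x hx => hY x (by omega)
  have hcmp := closed_compare (lam := 2 * c) hQ hR (by omega) (by omega) hρ hYc hB
  have hstep1 : avg (fun z => ind (C.mval β (a (G ∪ Y z)) i))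
      ≤ avg (fun z => ind (Hits B (Y z))) + avg (fun z => ind (bp z)) +
        avg (fun z => ind (Hits (A i) (Y z) ∧ ¬ Hits B (Y z))) := by
    rw [← avg_add, ← avg_add]
    apply avg_mono
    intro z
    by_cases hb : bp z
    · have e1 := ind_le_one (C.mval β (a (G ∪ Y z)) i)
      have e2 := ind_nonneg (Hits B (Y z))
      have e3 := ind_nonneg (Hits (A i) (Y z) ∧ ¬ Hits B (Y z))
      rw [ind_true hb]
      linarith
    · by_cases hv : C.mval β (a (G ∪ Y z)) i
      · have hA' := h2 z hb hv
        have e0 := ind_nonneg (bp z)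
        by_cases hB' : Hits B (Y z)
        · have e3 := ind_nonneg (Hits (A i) (Y z) ∧ ¬ Hits B (Y z))
          rw [ind_true hv, ind_true hB']
          linarith
        · rw [ind_true hv, ind_false hB', ind_true (show _ ∧ _ from ⟨hA', hB'⟩)]
          linarith
      · rw [ind_false hv]
        have e0 := ind_nonneg (bp z)
        have e2 := ind_nonneg (Hits B (Y z))
        have e3 := ind_nonneg (Hits (A i) (Y z) ∧ ¬ Hits B (Y z))
        linarith
  have hstep2 : (T Q)^[R] (fun S => ind (Hits B S)) ∅
      ≤ (T Q)^[R] (fun S => ind (C.mval β (a (G ∪ S)) i)) ∅ + (T Q)^[R] (fun S => ind (bn S)) ∅ +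
        (T Q)^[R] (fun S => ind (Hits B S ∧ ¬ Hits (A i) S)) ∅ := by
    have hpt : ∀ S : Set E, ind (Hits B S)
        ≤ ind (C.mval β (a (G ∪ S)) i) + ind (bn S) + ind (Hits B S ∧ ¬ Hits (A i) S) := by
      intro S
      have e1 := ind_nonneg (C.mval β (a (G ∪ S)) i)
      have e2 := ind_nonneg (bn S)
      have e3 := ind_nonneg (Hits B S ∧ ¬ Hits (A i) S)
      by_cases hv : Hits B S
      · by_cases hA' : Hits (A i) S
        · by_cases hb : bn S
          · rw [ind_true hv, ind_true hb]; linarith
          · rw [ind_true hv, ind_true (h3 S hb hA')]; linarith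
        · rw [ind_true hv, ind_true (show _ ∧ _ from ⟨hv, hA'⟩)]; linarith
      · rw [ind_false hv]; linarith
    have := T_iter_mono' (Q := Q) hpt R ∅
    rw [T_iter_add (fun S => ind (C.mval β (a (G ∪ S)) i) + ind (bn S)), T_iter_add] at this
    exact this
  have hshift : (T Q)^[R] (fun S => ind (C.mval β (a (G ∪ S)) i)) ∅
      = (T Q)^[R] (fun S => ind (C.mval β (a S) i)) G := by
    have := T_iter_shift Q (fun S => ind (C.mval β (a S) i)) G R ∅
    rw [Set.union_empty] at this
    exact this
  rw [hshift] at hstep2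
  have hp1 : (andLt C (i + 1) : ℝ) * (2 * (2 * c / ρ : ℝ) ^ (c + 1)) ≤
      s * (2 * (2 * c / ρ : ℝ) ^ (c + 1)) := mul_le_mul_of_nonneg_right hs (by positivity)
  have hn1 : (andLt C (i + 1) : ℝ) * (((Fintype.card E : ℝ) + 1) ^ (2 * c) * (3 / 4) ^ R) ≤
      s * (((Fintype.card E : ℝ) + 1) ^ (2 * c) * (3 / 4) ^ R) :=
    mul_le_mul_of_nonneg_right hs (by positivity)
  unfold err
  rw [add_mul, mul_add, one_mul]
  linarith

end AlmostMono
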