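import Pool.Agent.Lib.MP_8fffab_lc_FNC.Approx
import Pool.Agent.Lib.MP_8fffab_lc_NM.Rand

/-!
# The chain of random layers, and the lower bound in abstract form
-/

set_option autoImplicit false

open Finset FewNeg

namespace AlmostMono

variable {E Z : Type} [Fintype E] [DecidableEq E] [Fintype Z] [Nonempty Z]

/-- Chain bound for one circuit: the number of steps is at most the expected number of errors
plus the number of changes of the monotone functions. -/
theorem chainT_bound {ι : Type}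
    {Q R : ℕ} (hQ : 0 < Q) {Y : Z → Set E} {e : ℝ} (he : 0 ≤ e)
    {a : Set E → ι → Prop} (hamono : ∀ S S' : Set E, S ⊆ S' → ∀ v, a S v → a S' v)
    (C : Circuit ι) (o : ℕ) (m : ℕ)
    (hmono : ∀ (β : ℕ → Prop) (i : ℕ), i ≤ o → ∀ G : Set E,
      avg (fun z => ind (C.mval β (a (G ∪ Y z)) i))
        ≤ (T Q)^[R] (fun S => ind (C.mval β (a S) i)) G + e) :
    (m : ℝ) ≤ (∑ i ∈ range m, (T Q)^[i * R] (fun S => ind (C.val (a S) o) +
        avg (fun z => ind (¬ C.val (a (S ∪ Y z)) o))) ∅) +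
      ((C.numWires o + 1) * 2 ^ C.numOther o : ℕ) * (1 + m * e) := by
  classical
  obtain ⟨H, hH, hHs, hsep⟩ := separate C o
  obtain ⟨F, hF⟩ : ∃ F : ℕ × Finset ℕ → Set E → ℝ,
    F = fun h S => ind (C.mval (fun j => j ∈ h.2) (a S) h.1) := ⟨_, rfl⟩
  obtain ⟨B, hB⟩ : ∃ B : Set E → ℝ, B = fun S => ind (C.val (a S) o) +
        avg (fun z => ind (¬ C.val (a (S ∪ Y z)) o)) := ⟨_, rfl⟩
  rw [← hB]
  have hFmono : ∀ h S S', S ⊆ S' → F h S ≤ F h S' := fun h S S' hS => by
    rw [hF]; exact ind_mono (mval_mono C _ (hamono S S' hS) h.1)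
  -- the pointwise inequality
  have key : ∀ S : Set E, (1 : ℝ) ≤ B S + ∑ h ∈ H, ((T Q)^[R] (F h) S - F h S + e) := by
    intro S
    have hnn : ∀ h ∈ H, 0 ≤ (T Q)^[R] (F h) S - F h S + e := by
      intro h _
      have := T_iter_le_of_le hQ (hFmono h) (Nat.zero_le R) S
      rw [Function.iterate_zero, id] at this
      linarith
    have hsn := sum_nonneg hnn
    have hav : 0 ≤ avg (fun z => ind (¬ C.val (a (S ∪ Y z)) o)) := avg_nonneg fun _ => ind_nonneg _
    by_cases hv : C.val (a S) o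
    · rw [hB]
      simp only
      rw [ind_true hv]
      linarith
    · have h1 : (1 : ℝ) ≤ avg (fun z => ind (¬ C.val (a (S ∪ Y z)) o)) +
          ∑ h ∈ H, avg (fun z : Z => ind (¬ C.mval (fun j => j ∈ h.2) (a S) h.1 ∧
            C.mval (fun j => j ∈ h.2) (a (S ∪ Y z)) h.1)) := by
        rw [← avg_sum, ← avg_add]
        calc (1 : ℝ) = avg (fun _ : Z => (1 : ℝ)) := (avg_const 1).symm
          _ ≤ _ := by
            apply avg_mono
            intro z
            have hs0 : 0 ≤ ∑ h ∈ H, ind (¬ C.mval (fun j => j ∈ h.2) (a S) h.1 ∧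
                C.mval (fun j => j ∈ h.2) (a (S ∪ Y z)) h.1) :=
              sum_nonneg fun h _ => ind_nonneg _
            by_cases hz : C.val (a (S ∪ Y z)) o
            · obtain ⟨h, hh, hs⟩ := hsep (a S) (a (S ∪ Y z))
                (hamono _ _ Set.subset_union_left) hv hz
              have h2 := single_le_sum (f := fun h : ℕ × Finset ℕ =>
                  ind (¬ C.mval (fun j => j ∈ h.2) (a S) h.1 ∧
                    C.mval (fun j => j ∈ h.2) (a (S ∪ Y z)) h.1))
                  (fun h _ => ind_nonneg _) hh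
              rw [ind_true hs] at h2
              have h3 := ind_nonneg (¬ C.val (a (S ∪ Y z)) o)
              linarith
            · rw [ind_true hz]
              linarith
      have h2 : ∀ h ∈ H, avg (fun z : Z => ind (¬ C.mval (fun j => j ∈ h.2) (a S) h.1 ∧
            C.mval (fun j => j ∈ h.2) (a (S ∪ Y z)) h.1))
            ≤ (T Q)^[R] (F h) S - F h S + e := by
        intro h hh
        by_cases hm : C.mval (fun j => j ∈ h.2) (a S) h.1
        · have h3 : avg (fun z : Z => ind (¬ C.mval (fun j => j ∈ h.2) (a S) h.1 ∧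
              C.mval (fun j => j ∈ h.2) (a (S ∪ Y z)) h.1)) = 0 := by
            have : (fun z : Z => ind (¬ C.mval (fun j => j ∈ h.2) (a S) h.1 ∧
              C.mval (fun j => j ∈ h.2) (a (S ∪ Y z)) h.1)) = fun _ => (0 : ℝ) := by
              funext z
              exact ind_false (fun hc => hc.1 hm)
            rw [this, avg_const]
          rw [h3]
          exact hnn h hh
        · have hF0 : F h S = 0 := by rw [hF]; exact ind_false hm
          rw [hF0, sub_zero]
          have h3 := hmono (fun j => j ∈ h.2) h.1 (hHs h hh) S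
          have h4 : (T Q)^[R] (F h) S =
              (T Q)^[R] (fun S => ind (C.mval (fun j => j ∈ h.2) (a S) h.1)) S := by
            rw [hF]
          rw [h4]
          exact (avg_mono fun z => ind_mono fun hc => hc.2).trans h3
      have h5 := sum_le_sum h2
      have h6 : B S = avg (fun z => ind (¬ C.val (a (S ∪ Y z)) o)) := by
        rw [hB]
        simp only
        rw [ind_false hv, zero_add]
      rw [h6]
      linarith
  -- apply the averaging operators
  have step : ∀ i < m, (1 : ℝ) ≤ (T Q)^[i * R] B ∅ +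
      ∑ h ∈ H, ((T Q)^[(i + 1) * R] (F h) ∅ - (T Q)^[i * R] (F h) ∅ + e) := by
    intro i hi
    have h2 := T_iter_mono' (Q := Q) key (i * R) ∅
    rw [T_iter_const hQ, T_iter_add, T_iter_sum H (fun h S => (T Q)^[R] (F h) S - F h S + e)] at h2
    refine h2.trans (le_of_eq ?_)
    change (T Q)^[i * R] B ∅ + ∑ a ∈ H, (T Q)^[i * R] (fun S => (T Q)^[R] (F a) S - F a S + e) ∅ = _
    congr 1
    apply sum_congr rfl
    intro h _
    rw [T_iter_add (fun S => (T Q)^[R] (F h) S - F h S) (fun _ => e), T_iter_const hQ,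
      T_iter_sub ((T Q)^[R] (F h)) (F h)]
    simp only
    rw [← Function.iterate_add_apply, Nat.succ_mul]
  have hsum : (m : ℝ) ≤ (∑ i ∈ range m, (T Q)^[i * R] B ∅) +
      ∑ h ∈ H, ((T Q)^[m * R] (F h) ∅ - F h ∅ + m * e) := by
    calc (m : ℝ) = ∑ i ∈ range m, (1 : ℝ) := by
          rw [sum_const, card_range, nsmul_eq_mul, mul_one]
      _ ≤ ∑ i ∈ range m, ((T Q)^[i * R] B ∅ + ∑ h ∈ H,
            ((T Q)^[(i + 1) * R] (F h) ∅ - (T Q)^[i * R] (F h) ∅ + e)) :=
          sum_le_sum fun i hi => step i (mem_range.1 hi)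
      _ = (∑ i ∈ range m, (T Q)^[i * R] B ∅) +
            ∑ h ∈ H, ((T Q)^[m * R] (F h) ∅ - F h ∅ + m * e) := by
          rw [sum_add_distrib]
          congr 1
          rw [sum_comm]
          apply sum_congr rfl
          intro h _
          rw [sum_add_distrib, sum_range_sub (fun i => (T Q)^[i * R] (F h) ∅), sum_const,
            card_range, nsmul_eq_mul, zero_mul]
          rfl
  have hF01 : ∀ h S, 0 ≤ F h S ∧ F h S ≤ 1 := fun h S => by
    rw [hF]; exact ⟨ind_nonneg _, ind_le_one _⟩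
  have hbd : ∀ h ∈ H, (T Q)^[m * R] (F h) ∅ - F h ∅ + m * e ≤ 1 + m * e := by
    intro h _
    have h4 : (T Q)^[m * R] (F h) ∅ ≤ 1 := by
      calc (T Q)^[m * R] (F h) ∅ ≤ (T Q)^[m * R] (fun _ : Set E => (1 : ℝ)) ∅ :=
            T_iter_mono' (fun S => (hF01 h S).2) _ _
        _ = 1 := by rw [T_iter_const hQ]
    have h5 : 0 ≤ F h ∅ := (hF01 h ∅).1
    linarith
  have hcard : ∑ h ∈ H, ((T Q)^[m * R] (F h) ∅ - F h ∅ + m * e) ≤
      ((C.numWires o + 1) * 2 ^ C.numOther o : ℕ) * (1 + m * e) := by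
    calc ∑ h ∈ H, ((T Q)^[m * R] (F h) ∅ - F h ∅ + m * e)
        ≤ ∑ h ∈ H, (1 + m * e) := sum_le_sum hbd
      _ = H.card * (1 + m * e) := by rw [sum_const, nsmul_eq_mul]
      _ ≤ _ := by
          apply mul_le_mul_of_nonneg_right
          · exact_mod_cast hH
          · positivity
  linarith

/-- The lower bound for randomized circuits in abstract form. -/
theorem randT_bound {ι : Type}
    {Q R c ρ : ℕ} (hQ : 0 < Q) (hR : 0 < R) (hc : 1 ≤ c) (hρ : 8 * (1 + 2 * c) ≤ ρ)
    {Y : Z → Set E} (hY : Spread Y (Q * ρ) (2 * c))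
    {a : Set E → ι → Prop} (ha : IsLit a) (hamono : ∀ S S' : Set E, S ⊆ S' → ∀ v, a S v → a S' v)
    {M : ℕ} {p : Fin M → ℝ} (hp : ∀ j, 0 ≤ p j) (hp1 : ∑ j, p j = 1)
    {C : Fin M → Circuit ι} {o : Fin M → ℕ} {s m : ℕ} (hs : ∀ j, (C j).numAnd (o j) ≤ s)
    {W δ : ℝ}
    (hW : ∀ j, ((((C j).numWires (o j) + 1) * 2 ^ (C j).numOther (o j) : ℕ) : ℝ) ≤ W)
    {Bad : Set E → Prop}
    (h1 : ∀ S z, Y z ⊆ S → 1 / 2 + δ ≤ Prob p fun j => (C j).val (a S) (o j))
    (h0 : ∀ S, ¬ Bad S → Prob p (fun j => (C j).val (a S) (o j)) ≤ 1 / 2 - δ)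
    (hbad : ∀ i < m, (T Q)^[i * R] (fun S => ind (Bad S)) ∅ ≤ δ) :
    δ * m ≤ W * (1 + m * ((s + 1) * err (Fintype.card E) R c ρ)) := by
  classical
  obtain ⟨e, he⟩ : ∃ e, e = (s + 1) * err (Fintype.card E) R c ρ := ⟨_, rfl⟩
  rw [← he]
  have he0 : 0 ≤ e := by
    rw [he]; exact mul_nonneg (by positivity) (err_nonneg _ _ _ _)
  obtain ⟨z0⟩ := ‹Nonempty Z›
  have : Nonempty Z := ⟨z0⟩
  have hδ : δ ≤ 1 / 2 := by
    have h2 := h1 Set.univ z0 (Set.subset_univ _)
    have h3 := prob_le_one hp hp1 fun j => (C j).val (a Set.univ) (o j)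
    linarith
  obtain ⟨B, hB⟩ : ∃ B : Fin M → Set E → ℝ, B = fun j S => ind ((C j).val (a S) (o j)) +
        avg (fun z => ind (¬ (C j).val (a (S ∪ Y z)) (o j))) := ⟨_, rfl⟩
  have hchain : ∀ j, (m : ℝ) ≤ (∑ i ∈ range m, (T Q)^[i * R] (B j) ∅) + W * (1 + m * e) := by
    intro j
    have hle : ∀ i ≤ o j, (C j).numAnd i ≤ s := by
      intro i hi
      refine le_trans (Finset.card_le_card ?_) (hs j)
      intro x hx
      rw [Finset.mem_filter, Finset.mem_range] at hx ⊢
      exact ⟨by omega, hx.2⟩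
    have h2 := chainT_bound (R := R) hQ he0 hamono (C j) (o j) m
      (fun β i hi G => by
        rw [he]; exact mono_bound hQ hR hc hρ hY ha (C j) β (hle i hi) G)
    have h3 : ((((C j).numWires (o j) + 1) * 2 ^ (C j).numOther (o j) : ℕ) : ℝ) * (1 + m * e) ≤
        W * (1 + m * e) := mul_le_mul_of_nonneg_right (hW j) (by positivity)
    rw [hB]
    linarith
  -- average over the circuits
  have hpt : ∀ S : Set E, (∑ j, p j * B j S) ≤ (1 - 2 * δ) + ind (Bad S) := by
    intro S
    have h2 : (∑ j, p j * B j S) = Prob p (fun j => (C j).val (a S) (o j)) +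
        avg (fun z => 1 - Prob p (fun j => (C j).val (a (S ∪ Y z)) (o j))) := by
      have h3 : ∀ z, 1 - Prob p (fun j => (C j).val (a (S ∪ Y z)) (o j)) =
          ∑ j, p j * ind (¬ (C j).val (a (S ∪ Y z)) (o j)) := fun z => (prob_not hp1 _).symm
      simp only [h3]
      rw [avg_sum univ (fun j z => p j * ind (¬ (C j).val (a (S ∪ Y z)) (o j))), prob_eq,
        ← sum_add_distrib]
      apply sum_congr rfl
      intro j _
      rw [avg_mul_left, hB]
      ring
    have h4 : Prob p (fun j => (C j).val (a S) (o j)) ≤ 1 / 2 - δ + ind (Bad S) := by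
      by_cases hb : Bad S
      · rw [ind_true hb]
        have := prob_le_one hp hp1 fun j => (C j).val (a S) (o j)
        linarith
      · rw [ind_false hb, add_zero]
        exact h0 S hb
    have h5 : avg (fun z => 1 - Prob p (fun j => (C j).val (a (S ∪ Y z)) (o j))) ≤ 1 / 2 - δ := by
      calc avg (fun z => 1 - Prob p (fun j => (C j).val (a (S ∪ Y z)) (o j)))
          ≤ avg (fun _ : Z => 1 / 2 - δ) := by
            apply avg_mono
            intro z
            have := h1 (S ∪ Y z) z Set.subset_union_right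
            linarith
        _ = 1 / 2 - δ := avg_const _
    rw [h2]
    linarith
  have hstep : ∀ i < m, ∑ j, p j * (T Q)^[i * R] (B j) ∅ ≤ 1 - δ := by
    intro i hi
    have h2 : ∑ j, p j * (T Q)^[i * R] (B j) ∅ = (T Q)^[i * R] (fun S => ∑ j, p j * B j S) ∅ := by
      rw [T_iter_sum univ (fun j S => p j * B j S)]
      apply sum_congr rfl
      intro j _
      rw [T_iter_mul_left (p j) (B j)]
    rw [h2]
    refine (T_iter_mono' hpt (i * R) ∅).trans ?_
    rw [T_iter_add (fun _ => 1 - 2 * δ) (fun S => ind (Bad S)), T_iter_const hQ]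
    have := hbad i hi
    simp only
    linarith
  have hsum : (m : ℝ) ≤ m * (1 - δ) + W * (1 + m * e) := by
    calc (m : ℝ) = ∑ j, p j * (m : ℝ) := by rw [← sum_mul, hp1, one_mul]
      _ ≤ ∑ j, p j * ((∑ i ∈ range m, (T Q)^[i * R] (B j) ∅) + W * (1 + m * e)) :=
          sum_le_sum fun j _ => mul_le_mul_of_nonneg_left (hchain j) (hp j)
      _ = (∑ i ∈ range m, ∑ j, p j * (T Q)^[i * R] (B j) ∅) + W * (1 + m * e) := by
          obtain ⟨X, hX⟩ : ∃ X, X = W * (1 + m * e) := ⟨_, rfl⟩
          rw [← hX]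
          simp only [mul_add, sum_add_distrib, mul_sum]
          rw [sum_comm, ← sum_mul, hp1, one_mul]
      _ ≤ (∑ i ∈ range m, (1 - δ)) + W * (1 + m * e) := by
          have := sum_le_sum fun i hi => hstep i (mem_range.1 hi)
          linarith
      _ = _ := by rw [sum_const, card_range, nsmul_eq_mul]
  linarith

end AlmostMono
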