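import Pool.Agent.Lib.MP_8fffab_lc_NM.Defs
import Pool.Agent.Lib.MP_678664_lc_FN.Defs

/-!
# The constraint systems as instances of Set Cover
-/

set_option autoImplicit false

open Finset FewNeg

namespace AlmostMono

namespace CoverAux

/-- The universe: positions, and for every slot and every bit two elements which check that the
slot has the same bit as the canonical slot of the same variable. -/
abbrev Un (q D B : ℕ) := Fin (q + 1) ⊕ (Fin (q + 1) × Fin D × Fin B × Bool)

/-- Membership of an element of the universe in the set of `e`. -/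
def Mem {q D B : ℕ} (can : Fin (q + 1) × Fin D → Fin (q + 1) × Fin D)
    (e : El q D (2 ^ B)) : Un q D B → Prop
  | .inl j => e.1 = j
  | .inr (j, l, b, β) => (e.1 = j ∧ (e.2 l : ℕ).testBit b = β) ∨
      (e.1 = (can (j, l)).1 ∧ (e.2 (can (j, l)).2 : ℕ).testBit b = !β)

theorem exists_can {q D : ℕ} (φ : Fin (q + 1) → Fin D → Fin q) :
    ∃ can : Fin (q + 1) × Fin D → Fin (q + 1) × Fin D,
      (∀ p, φ (can p).1 (can p).2 = φ p.1 p.2) ∧
      ∀ p p', φ p.1 p.2 = φ p'.1 p'.2 → can p = can p' := by
  classical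
  have h : ∀ i : Set.range (fun p : Fin (q + 1) × Fin D => φ p.1 p.2),
      ∃ p : Fin (q + 1) × Fin D, φ p.1 p.2 = i := fun i => i.2
  choose f hf using h
  refine ⟨fun p => f ⟨φ p.1 p.2, p, rfl⟩, fun p => hf ⟨φ p.1 p.2, p, rfl⟩, fun p p' hp => ?_⟩
  have : (⟨φ p.1 p.2, p, rfl⟩ : Set.range (fun p : Fin (q + 1) × Fin D => φ p.1 p.2)) =
      ⟨φ p'.1 p'.2, p', rfl⟩ := Subtype.ext hp
  exact congrArg f this

theorem eq_of_bits {B : ℕ} {x y : Fin (2 ^ B)}
    (h : ∀ b : Fin B, (x : ℕ).testBit b = (y : ℕ).testBit b) : x = y := by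
  apply Fin.ext
  apply Nat.eq_of_testBit_eq
  intro i
  by_cases hi : i < B
  · exact h ⟨i, hi⟩
  · have hx : (x : ℕ) < 2 ^ i := lt_of_lt_of_le x.2 (Nat.pow_le_pow_right (by norm_num) (by omega))
    have hy : (y : ℕ) < 2 ^ i := lt_of_lt_of_le y.2 (Nat.pow_le_pow_right (by norm_num) (by omega))
    rw [Nat.testBit_lt_two_pow hx, Nat.testBit_lt_two_pow hy]

end CoverAux

open CoverAux

/-- The hard function is a restriction of Set Cover. -/
theorem cover_embedding {m n q D B : ℕ} (hm : (q + 1) * (2 ^ B) ^ D ≤ m)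
    (hn : (q + 1) * (1 + 2 * (D * B)) ≤ n) (φ : Fin (q + 1) → Fin D → Fin q) :
    ∃ Γ : Set (El q D (2 ^ B)) → Fin m → Fin n → Prop,
      IsLit (fun x (p : Fin m × Fin n) => Γ x p.1 p.2) ∧
      (∀ x y, x ⊆ y → ∀ p : Fin m × Fin n, Γ x p.1 p.2 → Γ y p.1 p.2) ∧
      ∀ x, HasCover (q + 1) (Γ x) ↔ ∃ w, Yw φ w ⊆ x := by
  classical
  obtain ⟨can, hcan, hcan'⟩ := exists_can φ
  have hc1 : Fintype.card (El q D (2 ^ B)) ≤ Fintype.card (Fin m) := by
    simpa [El] using hm
  have hc2 : Fintype.card (Un q D B) ≤ Fintype.card (Fin n) := by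
    simp only [Un, Fintype.card_sum, Fintype.card_prod, Fintype.card_fin, Fintype.card_bool]
    calc (q + 1) + (q + 1) * (D * (B * 2)) = (q + 1) * (1 + 2 * (D * B)) := by ring
      _ ≤ n := hn
  obtain ⟨g⟩ := Function.Embedding.nonempty_of_card_le hc1
  obtain ⟨g₂⟩ := Function.Embedding.nonempty_of_card_le hc2
  have : Nonempty (Un q D B) := ⟨Sum.inl 0⟩
  let π : Fin n → Un q D B := Function.invFun g₂
  have hπ : Function.Surjective π := Function.invFun_surjective g₂.injective
  let Γ : Set (El q D (2 ^ B)) → Fin m → Fin n → Prop :=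
    fun x i v => ∃ e, g e = i ∧ e ∈ x ∧ Mem can e (π v)
  refine ⟨Γ, ?_, ?_, ?_⟩
  · rintro ⟨i, v⟩
    by_cases h : ∃ e, g e = i ∧ Mem can e (π v)
    · obtain ⟨e, he, hM⟩ := h
      refine Or.inr (Or.inr ⟨e, fun x => ⟨?_, fun hx => ⟨e, he, hx, hM⟩⟩⟩)
      rintro ⟨e', he', hx, -⟩
      rwa [g.injective (he.trans he'.symm)]
    · exact Or.inr (Or.inl fun x hx => h (by
        obtain ⟨e, he, -, hM⟩ := hx
        exact ⟨e, he, hM⟩))
  · rintro x y hxy ⟨i, v⟩ ⟨e, he, hx, hM⟩
    exact ⟨e, he, hxy hx, hM⟩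
  · intro x
    constructor
    · rintro ⟨I, hI, hcov⟩
      have h1 : ∀ j : Fin (q + 1), ∃ e : El q D (2 ^ B), e.1 = j ∧ e ∈ x ∧ g e ∈ I := by
        intro j
        obtain ⟨v, hv⟩ := hπ (Sum.inl j)
        obtain ⟨i, hi, e, he, hx, hM⟩ := hcov v
        rw [hv] at hM
        exact ⟨e, hM, hx, by rw [he]; exact hi⟩
      choose E hE1 hE2 hE3 using h1
      have hinj : Function.Injective fun j => g (E j) := by
        intro j j' h
        have := g.injective h
        rw [← hE1 j, ← hE1 j', this]
      have hIeq : Finset.univ.image (fun j => g (E j)) = I := by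
        apply Finset.eq_of_subset_of_card_le
        · intro i hi
          obtain ⟨j, -, rfl⟩ := Finset.mem_image.1 hi
          exact hE3 j
        · rw [Finset.card_image_of_injective _ hinj, Finset.card_univ, Fintype.card_fin]
          exact hI
      have hbits : ∀ p : Fin (q + 1) × Fin D,
          (E p.1).2 p.2 = (E (can p).1).2 (can p).2 := by
        rintro ⟨j, l⟩
        apply eq_of_bits
        intro b
        by_contra hne
        obtain ⟨v, hv⟩ := hπ (Sum.inr (j, l, b, !((E j).2 l : ℕ).testBit b))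
        obtain ⟨i, hi, e, he, -, hM⟩ := hcov v
        rw [hv] at hM
        rw [← hIeq] at hi
        obtain ⟨j', -, hj'⟩ := Finset.mem_image.1 hi
        have he' : e = E j' := g.injective (he.trans hj'.symm)
        subst he'
        rcases hM with ⟨h2, h3⟩ | ⟨h2, h3⟩
        · rw [hE1] at h2
          subst h2
          simp at h3
        · rw [hE1] at h2
          subst h2
          simp only [Bool.not_not] at h3
          exact hne h3.symm
      -- the assignment
      let w : Fin q → Fin (2 ^ B) := fun i =>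
        if h : ∃ p : Fin (q + 1) × Fin D, φ p.1 p.2 = i then
          (E (can h.choose).1).2 (can h.choose).2 else 0
      refine ⟨w, ?_⟩
      rintro ⟨j, v⟩ hjv
      have hjv' : v = w ∘ φ j := hjv
      have hEj : E j = (j, v) := by
        apply Prod.ext
        · exact hE1 j
        · change (E j).2 = v
          rw [hjv']
          funext l
          have hex : ∃ p : Fin (q + 1) × Fin D, φ p.1 p.2 = φ j l := ⟨(j, l), rfl⟩
          have h4 : w (φ j l) = (E (can hex.choose).1).2 (can hex.choose).2 := dif_pos hex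
          rw [Function.comp_apply, h4, hcan' hex.choose (j, l) hex.choose_spec]
          exact hbits (j, l)
      rw [← hEj]
      exact hE2 j
    · rintro ⟨w, hw⟩
      refine ⟨Finset.univ.image fun j => g (j, w ∘ φ j), ?_, ?_⟩
      · refine Finset.card_image_le.trans ?_
        rw [Finset.card_univ, Fintype.card_fin]
      · have hmem : ∀ j : Fin (q + 1), ((j, w ∘ φ j) : El q D (2 ^ B)) ∈ x := fun j => hw rfl
        intro v
        rcases hv : π v with j | ⟨j, l, b, β⟩
        · exact ⟨_, Finset.mem_image_of_mem _ (Finset.mem_univ j), _, rfl, hmem j, by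
            rw [hv]; exact rfl⟩
        · by_cases hb : ((w (φ j l) : Fin (2 ^ B)) : ℕ).testBit b = β
          · exact ⟨_, Finset.mem_image_of_mem _ (Finset.mem_univ j), _, rfl, hmem j, by
              rw [hv]; exact Or.inl ⟨rfl, hb⟩⟩
          · refine ⟨_, Finset.mem_image_of_mem _ (Finset.mem_univ (can (j, l)).1), _, rfl,
              hmem _, ?_⟩
            rw [hv]
            refine Or.inr ⟨rfl, ?_⟩
            change ((w (φ (can (j, l)).1 (can (j, l)).2) : Fin (2 ^ B)) : ℕ).testBit b = !β
            rw [hcan (j, l)]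
            revert hb
            cases ((w (φ j l) : Fin (2 ^ B)) : ℕ).testBit b <;> cases β <;> simp

end AlmostMono
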