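import Pool.Agent.Lib.MP_678664_lc_FN.Basic

/-!
# Choice of the parameters
-/

set_option autoImplicit false

open Finset FewNeg

namespace AlmostMono

namespace FNC

/-- The powers of two around `(m / n) ^ (1 / D)`. -/
theorem exists_B {n m D : ℕ} (hn : 0 < n) (hD : 0 < D) (hnm : n ≤ m) :
    ∃ B : ℕ, n * (2 ^ B) ^ D ≤ m ∧ m < n * (2 * 2 ^ B) ^ D := by
  have h0 : m / n ≠ 0 := by
    have := Nat.div_pos hnm hn
    omega
  refine ⟨Nat.log 2 (m / n) / D, ?_, ?_⟩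
  · calc n * (2 ^ (Nat.log 2 (m / n) / D)) ^ D
        = n * 2 ^ (Nat.log 2 (m / n) / D * D) := by rw [← pow_mul]
      _ ≤ n * 2 ^ (Nat.log 2 (m / n)) :=
          Nat.mul_le_mul_left _ (Nat.pow_le_pow_right (by norm_num) (Nat.div_mul_le_self _ _))
      _ ≤ n * (m / n) := Nat.mul_le_mul_left _ (Nat.pow_log_le_self 2 h0)
      _ ≤ m := Nat.mul_div_le _ _
  · have h1 : Nat.log 2 (m / n) + 1 ≤ (Nat.log 2 (m / n) / D + 1) * D := by
      have h2 := Nat.lt_mul_div_succ (Nat.log 2 (m / n)) hD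
      calc Nat.log 2 (m / n) + 1 ≤ D * (Nat.log 2 (m / n) / D + 1) := h2
        _ = _ := mul_comm _ _
    calc m < n * (m / n + 1) := Nat.lt_mul_div_succ m hn
      _ ≤ n * 2 ^ (Nat.log 2 (m / n) + 1) :=
          Nat.mul_le_mul_left _ (Nat.lt_pow_succ_log_self (by norm_num) _)
      _ ≤ n * 2 ^ ((Nat.log 2 (m / n) / D + 1) * D) :=
          Nat.mul_le_mul_left _ (Nat.pow_le_pow_right (by norm_num) h1)
      _ = _ := by rw [pow_mul, pow_succ, mul_comm (2 ^ _) 2]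

theorem cube_lt {n m D A u : ℕ} (hn : 0 < n) (hA : 3 * D + 2 ≤ A)
    (hnA : n ^ A ≤ m) (h : m < n * (2 * u) ^ D) : n ^ 3 < 2 * u := by
  have h1 : n * (n ^ 3) ^ D < n * (2 * u) ^ D := by
    calc n * (n ^ 3) ^ D = n ^ (3 * D + 1) := by rw [← pow_mul, pow_succ]; ring
      _ ≤ n ^ A := Nat.pow_le_pow_right hn (by omega)
      _ ≤ m := hnA
      _ < _ := h
  have h2 : (n ^ 3) ^ D < (2 * u) ^ D := lt_of_mul_lt_mul_left h1 (Nat.zero_le _)
  exact lt_of_pow_lt_pow_left₀ D (Nat.zero_le _) h2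

/-- First error term. -/
theorem err_first {n u c₀ s N D : ℕ} (hu : n ^ 3 < 2 * u) (hn9 : 9 ≤ n) (hc : 2 * c₀ ≤ n)
    (hN : ((N : ℝ) + 1) ≤ 2 ^ (n + 1)) (hs : ((s : ℝ) + 1) ≤ 2 ^ (n + 1))
    (hU : ((u : ℝ) ^ (D - 6)) ≤ 2 ^ n) :
    (u : ℝ) ^ (D - 6) * (((s : ℝ) + 1) * (((N : ℝ) + 1) ^ (2 * c₀) * (3 / 4) ^ u)) ≤ 1 / 2 := by
  have h1 : ((N : ℝ) + 1) ^ (2 * c₀) ≤ 2 ^ ((n + 1) * n) := by
    calc ((N : ℝ) + 1) ^ (2 * c₀) ≤ (2 ^ (n + 1)) ^ (2 * c₀) :=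
          pow_le_pow_left₀ (by positivity) hN _
      _ ≤ (2 ^ (n + 1)) ^ n := pow_le_pow_right₀ (one_le_pow₀ one_le_two) hc
      _ = _ := by rw [← pow_mul]
  have hdiv : n ^ 2 + 3 * n + 2 ≤ u / 3 := by
    rw [Nat.le_div_iff_mul_le (by norm_num)]
    have h3 : n ^ 3 = n * n ^ 2 := by ring
    have h4 : 9 * n ^ 2 ≤ n * n ^ 2 := Nat.mul_le_mul_right _ hn9
    have h5 : 9 * n ≤ n ^ 2 := by rw [pow_two]; exact Nat.mul_le_mul_right _ hn9
    have h6 : 81 ≤ n ^ 2 := by nlinarith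
    omega
  have h2 : ((3 : ℝ) / 4) ^ u ≤ (1 / 2) ^ (n ^ 2 + 3 * n + 2) := by
    calc ((3 : ℝ) / 4) ^ u ≤ (3 / 4) ^ (3 * (u / 3)) :=
          pow_le_pow_of_le_one (by norm_num) (by norm_num) (Nat.mul_div_le _ _)
      _ = ((3 / 4) ^ 3) ^ (u / 3) := by rw [pow_mul]
      _ ≤ (1 / 2) ^ (u / 3) := pow_le_pow_left₀ (by norm_num) (by norm_num) _
      _ ≤ _ := pow_le_pow_of_le_one (by norm_num) (by norm_num) hdiv
  calc (u : ℝ) ^ (D - 6) * (((s : ℝ) + 1) * (((N : ℝ) + 1) ^ (2 * c₀) * (3 / 4) ^ u))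
      ≤ 2 ^ n * (2 ^ (n + 1) * (2 ^ ((n + 1) * n) * (1 / 2) ^ (n ^ 2 + 3 * n + 2))) := by gcongr
    _ = 2 ^ (n + (n + 1) + (n + 1) * n) * (1 / 2) ^ (n + (n + 1) + (n + 1) * n + 1) := by
        rw [show n ^ 2 + 3 * n + 2 = n + (n + 1) + (n + 1) * n + 1 by ring]
        rw [pow_add (2 : ℝ) (n + (n + 1)) ((n + 1) * n), pow_add (2 : ℝ) n (n + 1)]
        ring
    _ = 1 / 2 := by
        rw [pow_succ, ← mul_assoc, ← mul_pow]
        norm_num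

/-- Second error term. -/
theorem err_second {n B c₀ s D g : ℕ} (hn : n ^ 2 ≤ 2 ^ B) (hc : 2 * c₀ ≤ n)
    (hg : g = (c₀ + 1) / 2) {x : ℝ} (hs : ((s : ℝ) + 1) ≤ 2 ^ (x + 1))
    (hx : x + 3 + (B : ℝ) * D ≤ B * g) :
    (((2 ^ B : ℕ) : ℝ) ^ (D - 6)) * (((s : ℝ) + 1) *
      (2 * (2 * (c₀ : ℝ) / ((2 ^ B : ℕ) : ℝ)) ^ (c₀ + 1))) ≤ 1 / 2 := by
  obtain ⟨u, hu⟩ : ∃ u : ℕ, u = 2 ^ B := ⟨_, rfl⟩
  rw [← hu] at hn ⊢
  have hu1 : 1 ≤ u := by rw [hu]; exact Nat.one_le_two_pow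
  have hu1' : (1 : ℝ) ≤ u := by exact_mod_cast hu1
  have hu0 : (0 : ℝ) < u := by linarith
  have hcn : (2 * (c₀ : ℝ)) ≤ n := by exact_mod_cast hc
  have hnu : ((n : ℝ)) ^ 2 ≤ u := by exact_mod_cast hn
  have h1 : (2 * (c₀ : ℝ) / u) ^ 2 ≤ 1 / u := by
    rw [div_pow, div_le_div_iff₀ (by positivity) hu0]
    calc (2 * (c₀ : ℝ)) ^ 2 * u ≤ (n : ℝ) ^ 2 * u :=
          mul_le_mul_of_nonneg_right (pow_le_pow_left₀ (by positivity) hcn 2) hu0.le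
      _ ≤ u * u := mul_le_mul_of_nonneg_right hnu hu0.le
      _ = 1 * (u : ℝ) ^ 2 := by ring
  have hle1 : 2 * (c₀ : ℝ) / u ≤ 1 := by
    by_contra hcon
    have h2 : (1 : ℝ) < 2 * (c₀ : ℝ) / u := not_le.1 hcon
    have h3 : (1 : ℝ) < (2 * (c₀ : ℝ) / u) ^ 2 := one_lt_pow₀ h2 (by norm_num)
    have h4 : 1 / (u : ℝ) ≤ 1 := by rw [div_le_one hu0]; exact hu1'
    linarith
  have h2 : (2 * (c₀ : ℝ) / u) ^ (c₀ + 1) ≤ (1 / u) ^ g := by
    calc (2 * (c₀ : ℝ) / u) ^ (c₀ + 1) ≤ (2 * (c₀ : ℝ) / u) ^ (2 * g) :=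
          pow_le_pow_of_le_one (by positivity) hle1 (by omega)
      _ = ((2 * (c₀ : ℝ) / u) ^ 2) ^ g := by rw [pow_mul]
      _ ≤ _ := pow_le_pow_left₀ (by positivity) h1 _
  have h3 : (u : ℝ) ^ (D - 6) ≤ (u : ℝ) ^ D := pow_le_pow_right₀ hu1' (by omega)
  have huB : (u : ℝ) = (2 : ℝ) ^ (B : ℝ) := by rw [hu, Real.rpow_natCast]; push_cast; rfl
  have h4 : (u : ℝ) ^ D = (2 : ℝ) ^ ((B : ℝ) * D) := by
    rw [huB, ← Real.rpow_natCast, ← Real.rpow_mul (by norm_num)]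
  have h5 : (1 / (u : ℝ)) ^ g = (2 : ℝ) ^ (-((B : ℝ) * g)) := by
    rw [huB, one_div, inv_pow, ← Real.rpow_natCast, ← Real.rpow_mul (by norm_num),
      Real.rpow_neg (by norm_num)]
  calc (u : ℝ) ^ (D - 6) * (((s : ℝ) + 1) * (2 * (2 * (c₀ : ℝ) / u) ^ (c₀ + 1)))
      ≤ (2 : ℝ) ^ ((B : ℝ) * D) * (2 ^ (x + 1) * (2 * (2 : ℝ) ^ (-((B : ℝ) * g)))) := by
        rw [← h4, ← h5]
        gcongr
    _ = (2 : ℝ) ^ ((B : ℝ) * D) * (2 : ℝ) ^ (x + 1) * (2 : ℝ) ^ (1 : ℝ) *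
          (2 : ℝ) ^ (-((B : ℝ) * g)) := by
        rw [Real.rpow_one]
        ring
    _ = (2 : ℝ) ^ ((B : ℝ) * D + (x + 1) + 1 + (-((B : ℝ) * g))) := by
        rw [← Real.rpow_add two_pos, ← Real.rpow_add two_pos, ← Real.rpow_add two_pos]
    _ ≤ (2 : ℝ) ^ (-1 : ℝ) := Real.rpow_le_rpow_of_exponent_le one_le_two (by linarith)
    _ = 1 / 2 := by rw [Real.rpow_neg (by norm_num), Real.rpow_one, one_div]

/-- The parameters. -/
theorem params {D K A : ℕ} (hD : 7 ≤ D) (hK : 0 < K) (hA : 3 * D + 2 ≤ A) :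
    ∃ n₀ : ℕ, ∀ n ≥ n₀, ∀ m : ℕ, n ^ A ≤ m →
      (m : ℝ) ≤ 2 ^ (1 / (72 * (K : ℝ) * D) * n) →
      ∃ B q c₀ : ℕ, 0 < q ∧ (q + 1) * (2 ^ B) ^ D ≤ m ∧ (q + 1) * (1 + 2 * (D * B)) ≤ n ∧
        2 * c₀ ≤ q / K ∧ 1 ≤ c₀ ∧ 8 * (1 + 2 * c₀) ≤ 2 ^ B ∧
        (m : ℝ) * n ≤ ((2 ^ B : ℕ) : ℝ) ^ (q + 2) ∧ m ≤ n * (2 * 2 ^ B) ^ D ∧
        ∀ s : ℕ, (s : ℝ) < 2 ^ (1 / (72 * (K : ℝ) * D) * n) →
          ((2 ^ B : ℕ) : ℝ) ^ (D - 6) *
            (((s : ℝ) + 1) * err ((q + 1) * (2 ^ B) ^ D) (2 ^ B) c₀ (2 ^ B)) ≤ 1 := by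
  have hD' : (7 : ℝ) ≤ D := by exact_mod_cast hD
  have hK' : (1 : ℝ) ≤ K := by exact_mod_cast hK
  have hKD : (7 : ℝ) ≤ K * D := by nlinarith
  refine ⟨72 * K * D, fun n hn m hnA hm => ?_⟩
  have hn72 : 72 * 7 ≤ n := by
    refine le_trans ?_ hn
    calc 72 * 7 = 72 * 1 * 7 := by norm_num
      _ ≤ 72 * K * D := by gcongr; exact hK
  have hn0 : 0 < n := by omega
  have hnR : (0 : ℝ) < n := by exact_mod_cast hn0
  obtain ⟨c, hc⟩ : ∃ c : ℝ, c = 1 / (72 * (K : ℝ) * D) := ⟨_, rfl⟩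
  rw [← hc] at hm ⊢
  have hc0 : 0 < c := by rw [hc]; positivity
  have hcKD : c * (72 * (K * D)) = 1 := by rw [hc]; field_simp
  have hcn1 : 1 ≤ c * n := by
    have h1 : ((72 * K * D : ℕ) : ℝ) ≤ n := by exact_mod_cast hn
    push_cast at h1
    calc (1 : ℝ) = c * (72 * (K * D)) := hcKD.symm
      _ ≤ c * n := mul_le_mul_of_nonneg_left (by linarith) hc0.le
  have hcD : c * D ≤ 1 / 72 := by
    have h1 : c * D ≤ c * (K * D) := by
      refine mul_le_mul_of_nonneg_left ?_ hc0.le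
      nlinarith
    linarith
  have hc1 : c ≤ 1 / 504 := by nlinarith
  have hnm : n ≤ m := by
    calc n = n ^ 1 := (pow_one n).symm
      _ ≤ n ^ A := Nat.pow_le_pow_right hn0 (by omega)
      _ ≤ m := hnA
  obtain ⟨B, hB1, hB2⟩ := exists_B hn0 (show 0 < D by omega) hnm
  have hcube := cube_lt hn0 hA hnA hB2
  obtain ⟨u, hu⟩ : ∃ u : ℕ, u = 2 ^ B := ⟨_, rfl⟩
  -- bounds for `u` from below
  have hn3 : n ^ 3 = n * n ^ 2 := by ring
  have hsq : n ^ 2 ≤ u := by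
    have h4 : 2 * n ^ 2 ≤ n * n ^ 2 := Nat.mul_le_mul_right _ (by omega)
    omega
  have hnn : n * 504 ≤ n ^ 2 := by rw [pow_two]; exact Nat.mul_le_mul_left _ (by omega)
  have hun : n ≤ u := by omega
  -- bounds for `B` from above
  have hBD : (B : ℝ) * D ≤ c * n := by
    have h1 : ((2 ^ B) ^ D : ℕ) ≤ m := le_trans (Nat.le_mul_of_pos_left _ hn0) hB1
    have h2 : (2 : ℝ) ^ ((B : ℝ) * D) ≤ 2 ^ (c * n) := by
      refine le_trans (le_of_eq ?_) ((show (((2 ^ B) ^ D : ℕ) : ℝ) ≤ m by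
        exact_mod_cast h1).trans hm)
      push_cast
      rw [Real.rpow_mul (by norm_num), Real.rpow_natCast, Real.rpow_natCast]
    exact (Real.rpow_le_rpow_left_iff one_lt_two).1 h2
  have hBn : (B : ℝ) ≤ c * n / 7 := by
    rw [le_div_iff₀ (by norm_num)]
    exact (mul_le_mul_of_nonneg_left hD' (Nat.cast_nonneg B)).trans hBD
  have hB0 : 1 ≤ B := by
    by_contra hcon
    have : B = 0 := by omega
    rw [this, pow_zero] at hu
    omega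
  have hB0' : (1 : ℝ) ≤ B := by exact_mod_cast hB0
  -- the number of positions
  obtain ⟨k, hk⟩ : ∃ k, k = n / (1 + 2 * (D * B)) := ⟨_, rfl⟩
  have hk1 : k * (1 + 2 * (D * B)) ≤ n := by rw [hk]; exact Nat.div_mul_le_self _ _
  have hk2 : n < (k + 1) * (1 + 2 * (D * B)) := by
    rw [hk, mul_comm]; exact Nat.lt_mul_div_succ n (by omega)
  have hk2' : (n : ℝ) < (k + 1) * (1 + 2 * (D * B)) := by exact_mod_cast hk2
  have hk3 : (n : ℝ) < (k + 1) * (3 * (D * B)) := by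
    refine hk2'.trans_le (mul_le_mul_of_nonneg_left ?_ (by positivity))
    nlinarith
  have hk18 : 18 * (K * D) < k + 1 := by
    have h1 : (n : ℝ) < (k + 1) * (3 * (c * n)) := by
      refine hk3.trans_le (mul_le_mul_of_nonneg_left ?_ (by positivity))
      linarith
    have h2 : 1 < ((k : ℝ) + 1) * (3 * c) := by
      have h3 : (1 : ℝ) * n < ((k : ℝ) + 1) * (3 * c) * n := by
        calc (1 : ℝ) * n = n := one_mul _
          _ < _ := h1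
          _ = _ := by ring
      exact lt_of_mul_lt_mul_right h3 hnR.le
    have h4 : ((18 * (K * D) : ℕ) : ℝ) < ((k + 1 : ℕ) : ℝ) := by
      push_cast
      have h5 : (24 : ℝ) * (K * D) < k + 1 := by
        have h6 : c * (72 * (K * D)) < ((k : ℝ) + 1) * (3 * c) := by rw [hcKD]; exact h2
        have h7 : c * (24 * (K * D)) < c * ((k : ℝ) + 1) := by linarith
        exact lt_of_mul_lt_mul_left h7 hc0.le
      nlinarith
    exact_mod_cast h4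
  have hKDn : K * 7 ≤ K * D := Nat.mul_le_mul_left _ hD
  obtain ⟨q, hq⟩ : ∃ q, k = q + 1 := ⟨k - 1, by omega⟩
  subst hq
  have hq2K : 2 * K ≤ q := by omega
  obtain ⟨c₀, hc₀⟩ : ∃ c₀, c₀ = q / K / 2 := ⟨_, rfl⟩
  have hqn : q ≤ n := by
    calc q ≤ (q + 1) * 1 := by omega
      _ ≤ (q + 1) * (1 + 2 * (D * B)) := Nat.mul_le_mul_left _ (by omega)
      _ ≤ n := hk1
  have hqK : q / K ≤ q := Nat.div_le_self _ _
  have h2c : 2 * c₀ ≤ q / K := by rw [hc₀]; exact Nat.mul_div_le _ _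
  have hc₀1 : 1 ≤ c₀ := by
    rw [hc₀, Nat.le_div_iff_mul_le (by norm_num), Nat.le_div_iff_mul_le hK]
    omega
  have hqc : q < 2 * K * (c₀ + 1) := by
    have h1 : q / K < 2 * (c₀ + 1) := by omega
    have h2 := (Nat.div_lt_iff_lt_mul hK).1 h1
    calc q < 2 * (c₀ + 1) * K := h2
      _ = _ := by ring
  refine ⟨B, q, c₀, by omega, ?_, hk1, h2c, hc₀1, ?_, ?_, hB2.le, ?_⟩
  · refine le_trans (Nat.mul_le_mul_right _ ?_) hB1
    calc q + 1 = (q + 1) * 1 := (mul_one _).symm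
      _ ≤ (q + 1) * (1 + 2 * (D * B)) := Nat.mul_le_mul_left _ (by omega)
      _ ≤ n := hk1
  · rw [← hu]
    omega
  · -- `m * n ≤ u ^ (q + 2)`
    have hn1 : (n : ℝ) ≤ ((2 ^ B : ℕ) : ℝ) := by rw [← hu]; exact_mod_cast hun
    have h1 : c * n ≤ B * (q + 1 : ℕ) := by
      have h2 : (n : ℝ) < (q + 2) * (3 * (D * B)) := by
        refine hk3.trans_le (le_of_eq ?_)
        push_cast; ring
      have h3 : (n : ℝ) < 3 * D * (B * (q + 1)) + 3 * (B * D) := by linarith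
      have h4 : (n : ℝ) - 3 * (c * n) < 3 * D * (B * (q + 1)) := by linarith
      have h5 : 3 * D * (c * n) ≤ (n : ℝ) / 24 := by
        have : 3 * D * (c * n) = 3 * (c * D) * n := by ring
        rw [this]
        have : 3 * (c * D) * n ≤ 3 * (1 / 72) * n := by gcongr
        linarith
      have h6 : 3 * (c * n) ≤ (n : ℝ) / 24 := by nlinarith
      have h7 : (3 * D) * (c * n) < (3 * D) * (B * ((q : ℝ) + 1)) := by linarith
      have h8 := lt_of_mul_lt_mul_left h7 (by positivity)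
      push_cast
      exact h8.le
    calc (m : ℝ) * n ≤ 2 ^ (c * n) * ((2 ^ B : ℕ) : ℝ) := by gcongr
      _ ≤ 2 ^ ((B : ℝ) * (q + 1 : ℕ)) * ((2 ^ B : ℕ) : ℝ) := by
          gcongr
          exact one_le_two
      _ = _ := by
          rw [Real.rpow_mul (by norm_num), Real.rpow_natCast, Real.rpow_natCast]
          push_cast
          rw [← pow_succ]
  · intro s hs
    have hcn_le : c * n ≤ n := by nlinarith
    have htwo : (2 : ℝ) ^ (c * n) ≤ 2 ^ n := by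
      rw [← Real.rpow_natCast 2 n]
      exact Real.rpow_le_rpow_of_exponent_le one_le_two hcn_le
    have hpos : (1 : ℝ) ≤ 2 ^ (c * n) := Real.one_le_rpow one_le_two (by positivity)
    have hpos' : (1 : ℝ) ≤ 2 ^ n := one_le_pow₀ one_le_two
    have hs1 : ((s : ℝ) + 1) ≤ 2 ^ (c * n + 1) := by
      rw [Real.rpow_add (by norm_num), Real.rpow_one]
      linarith
    have hs2 : ((s : ℝ) + 1) ≤ 2 ^ (n + 1) := by
      rw [pow_succ]
      linarith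
    have hNm : (q + 1) * (2 ^ B) ^ D ≤ m := by
      refine le_trans (Nat.mul_le_mul_right _ ?_) hB1
      calc q + 1 = (q + 1) * 1 := (mul_one _).symm
        _ ≤ (q + 1) * (1 + 2 * (D * B)) := Nat.mul_le_mul_left _ (by omega)
        _ ≤ n := hk1
    have hN : ((((q + 1) * (2 ^ B) ^ D : ℕ) : ℝ) + 1) ≤ 2 ^ (n + 1) := by
      have h1 : (((q + 1) * (2 ^ B) ^ D : ℕ) : ℝ) ≤ m := by exact_mod_cast hNm
      rw [pow_succ]
      linarith
    have hU : (((2 ^ B : ℕ) : ℝ) ^ (D - 6)) ≤ 2 ^ n := by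
      have h1 : ((2 ^ B) ^ D : ℕ) ≤ m := le_trans (Nat.le_mul_of_pos_left _ hn0) hB1
      have h2 : (((2 ^ B : ℕ) : ℝ) ^ D) ≤ m := by exact_mod_cast h1
      have h3 : (1 : ℝ) ≤ ((2 ^ B : ℕ) : ℝ) := by exact_mod_cast Nat.one_le_two_pow
      exact (pow_le_pow_right₀ h3 (by omega)).trans (h2.trans (hm.trans htwo))
    have e1 := err_first (N := (q + 1) * (2 ^ B) ^ D) (u := 2 ^ B) (c₀ := c₀) (s := s) (D := D)
      (n := n) hcube (by omega) (by omega) hN hs2 hU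
    have hx : c * n + 3 + (B : ℝ) * D ≤ B * ((c₀ + 1) / 2 : ℕ) := by
      obtain ⟨g, hg⟩ : ∃ g, g = (c₀ + 1) / 2 := ⟨_, rfl⟩
      rw [← hg]
      have hg1 : c₀ ≤ 2 * g := by omega
      have hg1' : (c₀ : ℝ) ≤ 2 * g := by exact_mod_cast hg1
      have hqc' : (q : ℝ) < 2 * K * (c₀ + 1) := by exact_mod_cast hqc
      have h2 : (n : ℝ) < (q + 2) * (3 * (D * B)) := by
        refine hk3.trans_le (le_of_eq ?_)
        push_cast; ring
      have h3 : (q : ℝ) < 2 * K * (2 * g + 1) := by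
        refine hqc'.trans_le ?_
        gcongr
      have h4 : (n : ℝ) < (2 * K * (2 * g + 1) + 2) * (3 * (D * B)) := by
        refine h2.trans_le ?_
        gcongr
      have h5 : (2 * K * (2 * (g : ℝ) + 1) + 2) ≤ K * (4 * g + 4) := by nlinarith
      have h6 : (n : ℝ) < K * (4 * g + 4) * (3 * (D * B)) := by
        refine h4.trans_le ?_
        gcongr
      have h7 : (n : ℝ) < 12 * (K * D) * (B * g + B) := by
        refine h6.trans_le (le_of_eq ?_)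
        ring
      have h8 : c * n < c * (12 * (K * D) * (B * g + B)) := mul_lt_mul_of_pos_left h7 hc0
      have h9 : c * (12 * (K * D) * (B * g + B)) = (B * g + B) / 6 := by
        have : c * (12 * (K * D) * (B * g + B)) = c * (72 * (K * D)) * ((B * g + B) / 6) := by ring
        rw [this, hcKD, one_mul]
      rw [h9] at h8
      linarith
    have e2 := err_second (n := n) (B := B) (c₀ := c₀) (s := s) (D := D) (x := c * n)
      (by rw [← hu]; exact hsq) (by omega) rfl hs1 hx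
    unfold err
    have e3 : ((2 ^ B : ℕ) : ℝ) ^ (D - 6) * (((s : ℝ) + 1) *
        (((((q + 1) * (2 ^ B) ^ D : ℕ) : ℝ) + 1) ^ (2 * c₀) * (3 / 4) ^ (2 ^ B) +
          2 * (2 * (c₀ : ℝ) / ((2 ^ B : ℕ) : ℝ)) ^ (c₀ + 1))) =
        ((2 ^ B : ℕ) : ℝ) ^ (D - 6) * (((s : ℝ) + 1) *
          (((((q + 1) * (2 ^ B) ^ D : ℕ) : ℝ) + 1) ^ (2 * c₀) * (3 / 4) ^ (2 ^ B))) +
        ((2 ^ B : ℕ) : ℝ) ^ (D - 6) * (((s : ℝ) + 1) *
          (2 * (2 * (c₀ : ℝ) / ((2 ^ B : ℕ) : ℝ)) ^ (c₀ + 1))) := by ring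
    rw [e3]
    linarith

end FNC

end AlmostMono
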