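import Pool.Agent.Lib.MP_8fffab_lc_FNC.Chain
import Pool.Agent.Lib.MP_8fffab_lc_FNC.Cover
import Pool.Agent.Lib.MP_8fffab_lc_FNC.Params
import Pool.Agent.Lib.MP_678664_lc_FN.Csp
import Pool.Agent.Lib.MP_678664_lc_FN.Expander

/-!
# Set Cover and circuits with few gates other than AND and OR: the main theorem
-/

set_option autoImplicit false

open Finset FewNeg

namespace AlmostMono

namespace FNC

theorem card_El (q D u : ℕ) : Fintype.card (El q D u) = (q + 1) * u ^ D := by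
  simp [El]

/-- Few random layers contain no planted set. -/
theorem unsat_pow {q D u : ℕ} (hD : 6 ≤ D) (hu : 0 < u)
    (φ : Fin (q + 1) → Fin D → Fin q) {i : ℕ} (hi : i < u ^ (D - 6)) :
    (T (u ^ (D - 3)))^[i * u] (fun S : Set (El q D u) => ind (∃ w, Yw φ w ⊆ S)) ∅ ≤
      1 / (u : ℝ) ^ (q + 2) := by
  refine (unsat_bound (Nat.pow_pos hu) φ _).trans ?_
  have hu1 : (0 : ℝ) < u := by exact_mod_cast hu
  have h1 : (((i * u : ℕ) : ℝ) / ((u ^ (D - 3) : ℕ) : ℝ)) ≤ 1 / (u : ℝ) ^ 2 := by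
    rw [div_le_div_iff₀ (by positivity) (by positivity), one_mul]
    have h2 : i * u * u ^ 2 ≤ u ^ (D - 3) := by
      calc i * u * u ^ 2 = i * u ^ 3 := by ring
        _ ≤ u ^ (D - 6) * u ^ 3 := Nat.mul_le_mul_right _ hi.le
        _ = u ^ (D - 3) := by rw [← pow_add]; congr 1; omega
    exact_mod_cast h2
  calc (u : ℝ) ^ q * (((i * u : ℕ) : ℝ) / ((u ^ (D - 3) : ℕ) : ℝ)) ^ (q + 1)
      ≤ (u : ℝ) ^ q * (1 / (u : ℝ) ^ 2) ^ (q + 1) := by gcongr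
    _ = 1 / (u : ℝ) ^ (q + 2) := by
        rw [one_div_pow, ← pow_mul, mul_one_div, div_eq_div_iff (by positivity) (by positivity)]
        rw [one_mul, ← pow_add]
        congr 1
        ring

/-- The lower bound for fixed parameters. -/
theorem core {m n q D B c s t w r : ℕ} {δ : ℝ} (hD : 6 ≤ D)
    (hm : (q + 1) * (2 ^ B) ^ D ≤ m) (hn : (q + 1) * (1 + 2 * (D * B)) ≤ n)
    (φ : Fin (q + 1) → Fin D → Fin q) (hφ : Expands φ r) (hr : 2 * c ≤ r) (hc : 1 ≤ c)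
    (hu : 8 * (1 + 2 * c) ≤ 2 ^ B) (hδ : 1 / ((2 ^ B : ℕ) : ℝ) ^ (q + 2) ≤ δ)
    (hC : HasRandomCircuit m n (q + 1) s t w δ) :
    δ * ((2 ^ B : ℕ) : ℝ) ^ (D - 6) ≤ (((w : ℝ) + 1) * 2 ^ t) *
      (1 + ((2 ^ B : ℕ) : ℝ) ^ (D - 6) *
        (((s : ℝ) + 1) * err ((q + 1) * (2 ^ B) ^ D) (2 ^ B) c (2 ^ B))) := by
  classical
  obtain ⟨M₀, p, C, o, hp, hp1, hCo, hyes, hno⟩ := hC
  have hu0 : 0 < 2 ^ B := Nat.two_pow_pos B
  obtain ⟨Γ, hlit, hmono, hcov⟩ := cover_embedding hm hn φ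
  have hne : Nonempty (Fin q → Fin (2 ^ B)) := ⟨fun _ => ⟨0, hu0⟩⟩
  have hY : Spread (fun w : Fin q → Fin (2 ^ B) => Yw φ w)
      ((2 ^ B) ^ (D - 3) * 2 ^ B) (2 * c) := fun a ha =>
    spread_Yw hu0 (show 3 ≤ D by omega) φ hφ a (ha.trans hr)
  have key := randT_bound (Q := (2 ^ B) ^ (D - 3)) (R := 2 ^ B) (c := c) (ρ := 2 ^ B)
    (Nat.pow_pos hu0) hu0 hc hu hY hlit hmono hp hp1 (C := C) (o := o) (s := s)
    (m := (2 ^ B) ^ (D - 6)) (fun j => (hCo j).1) (W := ((w : ℝ) + 1) * 2 ^ t) (δ := δ)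
    (by
      intro j
      push_cast
      have h1 : ((C j).numWires (o j) : ℝ) ≤ w := by exact_mod_cast (hCo j).2.2
      have h2 : ((2 : ℝ) ^ (C j).numOther (o j)) ≤ 2 ^ t :=
        pow_le_pow_right₀ (by norm_num) (hCo j).2.1
      have h3 : (0 : ℝ) ≤ ((C j).numWires (o j) : ℝ) := Nat.cast_nonneg _
      gcongr)
    (Bad := fun S => ∃ w, Yw φ w ⊆ S)
    (fun S w hS => hyes (Γ S) ((hcov S).2 ⟨w, hS⟩))
    (fun S hS => hno (Γ S) fun h => hS ((hcov S).1 h))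
    (fun i hi => (unsat_pow hD hu0 φ hi).trans hδ)
  rw [card_El] at key
  push_cast at key ⊢
  exact key

/-- The number of layers is larger than the number of monotone functions. -/
theorem chain_large {D A : ℕ} {ε : ℝ} (hε : 0 < ε) (hD : 7 ≤ D) (hDε : 24 ≤ ε * D)
    (hAε : 8 ≤ ε * A) {n m u : ℕ} (hn : 2 ^ D ≤ n) (hnA : n ^ A ≤ m) (hu : 0 < u)
    (hm : m ≤ n * (2 * u) ^ D) :
    2 * ((m : ℝ) * n) ^ (1 - ε) < (u : ℝ) ^ (D - 6) := by
  have hn0 : 0 < n := lt_of_lt_of_le (Nat.two_pow_pos D) hn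
  have hm0 : 0 < m := lt_of_lt_of_le (Nat.pow_pos hn0) hnA
  have hnR : (0 : ℝ) < n := by exact_mod_cast hn0
  have hmR : (0 : ℝ) < m := by exact_mod_cast hm0
  have huR : (0 : ℝ) < u := by exact_mod_cast hu
  obtain ⟨a, ha⟩ : ∃ a, a = Real.log m := ⟨_, rfl⟩
  obtain ⟨b, hb⟩ : ∃ b, b = Real.log n := ⟨_, rfl⟩
  obtain ⟨y, hy⟩ : ∃ y, y = Real.log u := ⟨_, rfl⟩
  obtain ⟨l, hl⟩ : ∃ l, l = Real.log 2 := ⟨_, rfl⟩
  have hl0 : 0 < l := by rw [hl]; exact Real.log_pos one_lt_two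
  have hD0 : (7 : ℝ) ≤ D := by exact_mod_cast hD
  have hbD : D * l ≤ b := by
    have h1 : (2 : ℝ) ^ D ≤ n := by exact_mod_cast hn
    have h2 := Real.log_le_log (by positivity) h1
    rw [Real.log_pow] at h2
    rw [hb, hl]; exact h2
  have hb0 : 0 < b := lt_of_lt_of_le (by positivity) hbD
  have haA : A * b ≤ a := by
    have h1 : (n : ℝ) ^ A ≤ m := by exact_mod_cast hnA
    have h2 := Real.log_le_log (by positivity) h1
    rw [Real.log_pow] at h2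
    rw [ha, hb]; exact h2
  have hay : a ≤ b + D * (l + y) := by
    have h1 : (m : ℝ) ≤ n * (2 * u) ^ D := by exact_mod_cast hm
    have h2 := Real.log_le_log hmR h1
    rw [Real.log_mul (by positivity) (by positivity), Real.log_pow,
      Real.log_mul (by norm_num) (by positivity)] at h2
    rw [ha, hb, hl, hy]; exact h2
  have hlog : l + (1 - ε) * (a + b) < (D - 6) * y := by
    have h1 : (D - 6) * (a - b - D * l) ≤ (D - 6) * (D * y) :=
      mul_le_mul_of_nonneg_left (by linarith) (by linarith)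
    have h2 : 8 * b ≤ ε * a := by
      calc 8 * b ≤ (ε * A) * b := mul_le_mul_of_nonneg_right hAε hb0.le
        _ = ε * (A * b) := by ring
        _ ≤ ε * a := mul_le_mul_of_nonneg_left haA hε.le
    have ha0 : 0 < a := by
      have : 0 < ε * a := by linarith
      exact (pos_iff_pos_of_mul_pos this).1 hε
    have h3 : 24 * a ≤ ε * D * a := mul_le_mul_of_nonneg_right hDε ha0.le
    have h4 : 24 * b ≤ ε * D * b := mul_le_mul_of_nonneg_right hDε hb0.le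
    have h5 : D * (8 * b) ≤ D * (ε * a) := mul_le_mul_of_nonneg_left h2 (by linarith)
    have h6 : D * (D * l) ≤ D * b := mul_le_mul_of_nonneg_left hbD (by linarith)
    have h7 : 0 < D * b := by positivity
    have h8 : 0 < D * l := by positivity
    have h9 : D * (l + (1 - ε) * (a + b)) < D * ((D - 6) * y) := by
      have e1 : D * (l + (1 - ε) * (a + b)) = D * l + D * a + D * b - ε * D * a - ε * D * b := by
        ring
      have e2 : (D - 6) * (a - b - D * l) = D * a - 6 * a - D * b + 6 * b - D * (D * l) +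
        6 * (D * l) := by ring
      have e3 : D * ((D - 6) * y) = (D - 6) * (D * y) := by ring
      have e4 : D * (ε * a) = ε * D * a := by ring
      rw [e1, e3]
      rw [e2] at h1
      rw [e4] at h5
      linarith
    exact lt_of_mul_lt_mul_left h9 (by linarith)
  have h1 : (0 : ℝ) < 2 * ((m : ℝ) * n) ^ (1 - ε) := by positivity
  rw [← Real.log_lt_log_iff h1 (by positivity), Real.log_mul (by norm_num) (by positivity),
    Real.log_rpow (by positivity), Real.log_mul (by positivity) (by positivity), Real.log_pow,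
    Nat.cast_sub (by omega), ← ha, ← hb, ← hy, ← hl]
  push_cast
  exact hlog

/-- **Main theorem.** -/
theorem main : ∀ ε : ℝ, 0 < ε → ∃ c : ℝ, 0 < c ∧ ∃ A n₀ : ℕ, ∀ n ≥ n₀, ∀ m : ℕ, n ^ A ≤ m →
    (m : ℝ) ≤ 2 ^ (c * n) → ∃ k ≤ n, ∀ (s t w : ℕ) (γ : ℝ), 0 < γ →
      ((w : ℝ) + 1) * 2 ^ t ≤ γ * ((m : ℝ) * n) ^ (1 - ε) →
      HasRandomCircuit m n k s t w γ → (2 : ℝ) ^ (c * n) ≤ s := by
  intro ε hε
  obtain ⟨D, hD7, hDε⟩ : ∃ D : ℕ, 7 ≤ D ∧ 24 ≤ ε * D := by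
    refine ⟨⌈24 / ε⌉₊ + 7, by omega, ?_⟩
    have h1 : 24 / ε ≤ ⌈24 / ε⌉₊ := Nat.le_ceil _
    rw [div_le_iff₀ hε] at h1
    push_cast
    nlinarith
  obtain ⟨A, hA1, hAε⟩ : ∃ A : ℕ, 3 * D + 2 ≤ A ∧ 8 ≤ ε * A := by
    refine ⟨⌈8 / ε⌉₊ + (3 * D + 2), by omega, ?_⟩
    have h1 : 8 / ε ≤ ⌈8 / ε⌉₊ := Nat.le_ceil _
    rw [div_le_iff₀ hε] at h1
    push_cast
    have h2 : (0 : ℝ) ≤ ε * (3 * D + 2) := by positivity
    nlinarith
  obtain ⟨K, hK, hexp⟩ := exists_expander D (by omega)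
  have hK' : (0 : ℝ) < K := by exact_mod_cast hK
  have hD' : (0 : ℝ) < D := by
    have : 0 < D := by omega
    exact_mod_cast this
  obtain ⟨n₁, hn₁⟩ := params hD7 hK hA1
  refine ⟨1 / (72 * (K : ℝ) * D), by positivity, A, n₁ + 2 ^ D, fun n hn m hnA hm => ?_⟩
  obtain ⟨B, q, c₀, hq0, hqm, hqn, hc1, hc2, hu, hmn, hmB, herr⟩ := hn₁ n
    ((Nat.le_add_right _ _).trans hn) m hnA hm
  refine ⟨q + 1, ?_, fun s t w γ hγ hW hC => ?_⟩
  · calc q + 1 = (q + 1) * 1 := (mul_one _).symm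
      _ ≤ (q + 1) * (1 + 2 * (D * B)) := Nat.mul_le_mul_left _ (by omega)
      _ ≤ n := hqn
  obtain ⟨φ, hφ⟩ := hexp q hq0
  have hn0 : 0 < n := by
    have := Nat.two_pow_pos D
    omega
  have hm0 : 0 < m := lt_of_lt_of_le (Nat.pow_pos hn0) hnA
  have hnR : (1 : ℝ) ≤ n := by exact_mod_cast hn0
  have hmR : (1 : ℝ) ≤ m := by exact_mod_cast hm0
  have hmnR : (1 : ℝ) ≤ (m : ℝ) * n := one_le_mul_of_one_le_of_one_le hmR hnR
  have hW1 : (1 : ℝ) ≤ ((w : ℝ) + 1) * 2 ^ t :=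
    one_le_mul_of_one_le_of_one_le (by linarith [(Nat.cast_nonneg w : (0 : ℝ) ≤ w)])
      (one_le_pow₀ one_le_two)
  have hrle : ((m : ℝ) * n) ^ (1 - ε) ≤ (m : ℝ) * n := by
    calc ((m : ℝ) * n) ^ (1 - ε) ≤ ((m : ℝ) * n) ^ (1 : ℝ) :=
          Real.rpow_le_rpow_of_exponent_le hmnR (by linarith)
      _ = _ := Real.rpow_one _
  by_contra hs
  have hs' : (s : ℝ) < 2 ^ (1 / (72 * (K : ℝ) * D) * n) := not_le.1 hs
  have hδ : 1 / ((2 ^ B : ℕ) : ℝ) ^ (q + 2) ≤ γ := by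
    rw [div_le_iff₀ (by positivity)]
    calc (1 : ℝ) ≤ γ * ((m : ℝ) * n) ^ (1 - ε) := hW1.trans hW
      _ ≤ γ * ((2 ^ B : ℕ) : ℝ) ^ (q + 2) :=
          mul_le_mul_of_nonneg_left (hrle.trans hmn) hγ.le
  have key := core (by omega) hqm hqn φ hφ (le_trans hc1 le_rfl) hc2 hu hδ hC
  have herr' := herr s hs'
  have hlarge := chain_large hε hD7 hDε hAε (n := n) (m := m) (u := 2 ^ B)
    ((Nat.le_add_left _ _).trans hn) hnA
    (Nat.two_pow_pos B) hmB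
  have h1 : (((w : ℝ) + 1) * 2 ^ t) *
      (1 + ((2 ^ B : ℕ) : ℝ) ^ (D - 6) *
        (((s : ℝ) + 1) * err ((q + 1) * (2 ^ B) ^ D) (2 ^ B) c₀ (2 ^ B))) ≤
      (((w : ℝ) + 1) * 2 ^ t) * 2 := mul_le_mul_of_nonneg_left (by linarith) (by positivity)
  have h2 : γ * (2 * ((m : ℝ) * n) ^ (1 - ε)) < γ * ((2 ^ B : ℕ) : ℝ) ^ (D - 6) :=
    mul_lt_mul_of_pos_left hlarge hγ
  linarith

end FNC

end AlmostMono
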